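import Mathlib
import Pool.Agent.H29.Foln

namespace Pool.Agent.Results.MP_eff972_al.HeisZ

/-- The ball of radius `n` for the word length with respect to `X ∪ X⁻¹`. -/
def ball {G : Type} [Group G] (X : Finset G) (n : ℕ) : Set G :=
  {g | ∃ l : List G, l.length ≤ n ∧ (∀ x ∈ l, x ∈ X ∨ x⁻¹ ∈ X) ∧ l.prod = g}

/-- The orbit of `g` under the automorphism group. -/
def orb {G : Type} [Group G] (g : G) : Set G := {h | ∃ φ : MulAut G, φ g = h}

/-- The automorphic growth function: the number of orbits meeting the ball of radius `n`. -/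
noncomputable def growth {G : Type} [Group G] (X : Finset G) (n : ℕ) : ℕ := (orb '' ball X n).ncard

/-- The domination preorder on growth functions. -/
def Dom (f g : ℕ → ℕ) : Prop := ∃ l : ℕ, 1 ≤ l ∧ ∀ n, f n ≤ l * g (l * n + l) + l

open Set

/-- a Heisenberg group times the integers -/
@[ext] structure H where
  a : ℤ
  b : ℤ
  c : ℤ
  t : ℤ

instance : Mul H := ⟨fun x y => ⟨x.a + y.a, x.b + y.b, x.c + y.c + (x.a * y.b - x.b * y.a), x.t + y.t⟩⟩
instance : One H := ⟨⟨0, 0, 0, 0⟩⟩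
instance : Inv H := ⟨fun x => ⟨-x.a, -x.b, -x.c, -x.t⟩⟩
lemma mul_def (x y : H) :
    x * y = ⟨x.a + y.a, x.b + y.b, x.c + y.c + (x.a * y.b - x.b * y.a), x.t + y.t⟩ := rfl
lemma one_def : (1 : H) = ⟨0, 0, 0, 0⟩ := rfl
lemma inv_def (x : H) : x⁻¹ = ⟨-x.a, -x.b, -x.c, -x.t⟩ := rfl

instance : Group H := Group.ofLeftAxioms
  (fun x y z => by simp only [mul_def, H.mk.injEq]; refine ⟨?_, ?_, ?_, ?_⟩ <;> ring)
  (fun x => by simp [mul_def, one_def])
  (fun x => by simp only [mul_def, inv_def, one_def, H.mk.injEq]; refine ⟨?_, ?_, ?_, ?_⟩ <;> ring)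

lemma pow_def (x : H) (n : ℕ) : x ^ n = ⟨n * x.a, n * x.b, n * x.c, n * x.t⟩ := by
  induction n with
  | zero => simp [one_def]
  | succ n ih =>
    rw [pow_succ, ih]; simp only [mul_def, H.mk.injEq]; push_cast
    refine ⟨?_, ?_, ?_, ?_⟩ <;> ring

lemma zpow_def (x : H) (n : ℤ) : x ^ n = ⟨n * x.a, n * x.b, n * x.c, n * x.t⟩ := by
  obtain ⟨k, rfl | rfl⟩ := Int.eq_nat_or_neg n <;> simp [pow_def, inv_def]

def A : H := ⟨1, 0, 0, 0⟩
def B : H := ⟨0, 1, 0, 0⟩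
def Z : H := ⟨0, 0, 1, 0⟩
def T : H := ⟨0, 0, 0, 1⟩

noncomputable def X : Finset H := by classical exact {A, B, Z, T}

lemma mem_X (x : H) : x ∈ X ↔ x = A ∨ x = B ∨ x = Z ∨ x = T := by simp [X]

lemma gen : Subgroup.closure (X : Set H) = ⊤ := by
  rw [eq_top_iff]
  intro g _
  have h : g = A ^ g.a * B ^ g.b * Z ^ (g.c - g.a * g.b) * T ^ g.t := by
    simp [zpow_def, mul_def, A, B, Z, T]
  have m : ∀ x ∈ X, ∀ k : ℤ, x ^ k ∈ Subgroup.closure (X : Set H) := fun x hx k =>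
    Subgroup.zpow_mem _ (Subgroup.subset_closure hx) k
  rw [h]
  exact Subgroup.mul_mem _ (Subgroup.mul_mem _ (Subgroup.mul_mem _ (m _ (by simp [mem_X]) _)
    (m _ (by simp [mem_X]) _)) (m _ (by simp [mem_X]) _)) (m _ (by simp [mem_X]) _)

lemma ball_bd {n : ℕ} {g : H} (hg : g ∈ ball X n) :
    |g.a| ≤ n ∧ |g.b| ≤ n ∧ |g.t| ≤ n ∧ |g.c| ≤ n ^ 2 := by
  obtain ⟨l, h1, h2, rfl⟩ := hg
  have : |l.prod.a| ≤ l.length ∧ |l.prod.b| ≤ l.length ∧ |l.prod.t| ≤ l.length ∧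
      |l.prod.c| ≤ l.length ^ 2 := by
    clear h1
    induction l with
    | nil => simp [one_def]
    | cons x l ih =>
      obtain ⟨a1, a2, a3, a4⟩ := ih fun y hy => h2 y (by simp [hy])
      have h3 := h2 x (by simp)
      have h0 : (0 : ℤ) ≤ l.length := by positivity
      simp only [mem_X, inv_eq_iff_eq_inv] at h3
      simp only [List.prod_cons, List.length_cons, abs_le] at *
      push_cast
      rcases h3 with (rfl | rfl | rfl | rfl) | (rfl | rfl | rfl | rfl) <;>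
        simp only [mul_def, inv_def, A, B, Z, T] <;>
        refine ⟨⟨?_, ?_⟩, ⟨?_, ?_⟩, ⟨?_, ?_⟩, ⟨?_, ?_⟩⟩ <;> nlinarith
  have h3 : (l.length : ℤ) ≤ n := by exact_mod_cast h1
  have h4 : (l.length : ℤ) ^ 2 ≤ n ^ 2 := pow_le_pow_left₀ (by positivity) h3 2
  exact ⟨this.1.trans h3, this.2.1.trans h3, this.2.2.1.trans h3, this.2.2.2.trans h4⟩

lemma nf_mem (d s x : ℕ) : (⟨d, 0, s, x⟩ : H) ∈ ball X (d + s + x) := by
  have m : ∀ y ∈ X, ∀ k : ℕ, y ^ k ∈ Pool.Agent.H29.Foln.ball X k := fun y hy k => by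
    simpa using Pool.Agent.H29.Foln.pow_mem (X := X) (n := 1) ⟨[y], le_rfl, by simp [hy], by simp⟩ k
  have := Pool.Agent.H29.Foln.mul_mem (Pool.Agent.H29.Foln.mul_mem (m A (by simp [mem_X]) d)
    (m Z (by simp [mem_X]) s)) (m T (by simp [mem_X]) x)
  have e : A ^ d * Z ^ s * T ^ x = ⟨d, 0, s, x⟩ := by simp [pow_def, mul_def, A, Z, T]
  rwa [e] at this

lemma orb_eq (φ : MulAut H) (g : H) : orb (φ g) = orb g := by
  ext h
  exact ⟨fun ⟨ψ, e⟩ => ⟨ψ * φ, e⟩, fun ⟨ψ, e⟩ => ⟨ψ * φ⁻¹, by simpa using e⟩⟩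

/-- linear automorphisms -/
def lin (p q r s : ℤ) (h : p * s - q * r = 1) : MulAut H where
  toFun g := ⟨p * g.a + q * g.b, r * g.a + s * g.b, g.c, g.t⟩
  invFun g := ⟨s * g.a - q * g.b, -r * g.a + p * g.b, g.c, g.t⟩
  left_inv g := H.ext (by linear_combination g.a * h) (by linear_combination g.b * h) rfl rfl
  right_inv g := H.ext (by linear_combination g.a * h) (by linear_combination g.b * h) rfl rfl
  map_mul' x y := by
    simp only [mul_def, H.mk.injEq]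
    refine ⟨by ring, by ring, ?_, trivial⟩
    linear_combination (x.b * y.a - x.a * y.b) * h

/-- central automorphisms -/
def cen (i j l : ℤ) : MulAut H where
  toFun g := ⟨g.a, g.b, g.c + j * g.a + l * (g.t + i * g.a), g.t + i * g.a⟩
  invFun g := ⟨g.a, g.b, g.c - j * g.a - l * g.t, g.t - i * g.a⟩
  left_inv g := H.ext rfl rfl (by ring) (by ring)
  right_inv g := H.ext rfl rfl (by ring) (by ring)
  map_mul' x y := by
    simp only [mul_def, H.mk.injEq]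
    refine ⟨trivial, trivial, by ring, by ring⟩

def enc (q : Bool × ℕ × ℕ × ℕ) : H :=
  if q.1 then ⟨q.2.1 * q.2.2.1, 0, (q.2.2.2 % q.2.1 : ℕ), q.2.1 * (q.2.2.2 / q.2.1 : ℕ)⟩
  else ⟨q.2.2.1 * q.2.1, 0, (q.2.2.2 % q.2.2.1 : ℕ), q.2.2.1 * (q.2.2.2 / q.2.2.1 : ℕ)⟩

lemma upper (n : ℕ) : growth X n ≤ 2 * (n.sqrt + 1) * (n + 1) ^ 2 + (2 * n ^ 2 + 1) +
    (2 * n + 1) ^ 2 := by
  classical
  let S1 : Finset H := (Finset.univ ×ˢ Finset.range (n.sqrt + 1) ×ˢ Finset.range (n + 1) ×ˢ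
    Finset.range (n + 1)).image enc
  let S2 : Finset H := (Finset.Icc (-(n : ℤ) ^ 2) (n ^ 2)).image fun c => ⟨0, 0, c, 0⟩
  let S3 : Finset H := (Finset.Icc (-(n : ℤ)) n ×ˢ Finset.Icc (-(n : ℤ)) n).image
    fun q => ⟨0, 0, q.1, q.2⟩
  have h1 : orb '' ball X n ⊆ orb '' ((S1 ∪ S2 ∪ S3 : Finset H) : Set H) := by
    rintro _ ⟨g, hg, rfl⟩
    obtain ⟨a1, a2, a3, a4⟩ := ball_bd hg
    rcases Nat.eq_zero_or_pos (Int.gcd g.a g.b) with h | h
    · obtain ⟨b1, b2⟩ := Int.gcd_eq_zero_iff.1 h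
      by_cases ht : g.t = 0
      · refine ⟨g, by
          simp only [Finset.coe_union, mem_union, Finset.mem_coe]
          exact Or.inl (Or.inr (Finset.mem_image.2 ⟨g.c, Finset.mem_Icc.2 (abs_le.1 a4),
            H.ext b1.symm b2.symm rfl ht.symm⟩)), rfl⟩
      · refine ⟨cen 0 0 (-(g.c / g.t)) g, ?_, orb_eq _ _⟩
        simp only [Finset.coe_union, mem_union, Finset.mem_coe]
        have c1 := Int.emod_nonneg g.c ht
        have c2 := Int.emod_lt_abs g.c ht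
        refine Or.inr (Finset.mem_image.2 ⟨(g.c % g.t, g.t), Finset.mem_product.2
          ⟨Finset.mem_Icc.2 ⟨by omega, by omega⟩, Finset.mem_Icc.2 (abs_le.1 a3)⟩,
          H.ext b1.symm b2.symm ?_ (by simp [cen])⟩)
        simp only [cen, MulEquiv.coe_mk, Equiv.coe_fn_mk, Int.emod_def]; ring
    · obtain ⟨a', b', hc, e1, e2⟩ := Int.exists_gcd_one h
      have hd : Int.gcd g.a g.b ≤ n := by
        have := abs_le.1 a1
        have := abs_le.1 a2
        by_cases h0 : g.a = 0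
        · have : Int.gcd g.a g.b = g.b.natAbs := by rw [h0]; simp
          omega
        · have := Nat.le_of_dvd (Int.natAbs_pos.2 h0) (Int.natCast_dvd.1 (Int.gcd_dvd_left g.a g.b))
          omega
      generalize Int.gcd g.a g.b = d at *
      obtain ⟨u, v, huv⟩ := Int.isCoprime_iff_gcd_eq_one.2 hc
      have hd0 : (d : ℤ) ≠ 0 := by omega
      obtain ⟨x, hx⟩ := Int.eq_ofNat_of_zero_le (Int.emod_nonneg g.t hd0)
      have hxd : x < d := by have := Int.emod_lt_of_pos g.t (show (0 : ℤ) < d by omega); omega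
      obtain ⟨e, x', m, he, hc', rfl, rfl⟩ := Nat.exists_coprime' (Nat.gcd_pos_of_pos_right x h)
      obtain ⟨j, l, hjl⟩ := (Nat.isCoprime_iff_coprime.2 hc').symm
      have he0 : (e : ℤ) ≠ 0 := by omega
      obtain ⟨s, hs⟩ := Int.eq_ofNat_of_zero_le (Int.emod_nonneg g.c he0)
      have hse : s < e := by have := Int.emod_lt_of_pos g.c (show (0 : ℤ) < e by omega); omega
      have hx' : x' < m := lt_of_mul_lt_mul_right hxd (Nat.zero_le _)
      have key : cen (-(g.t / (m * e : ℕ))) (-(g.c / e) * j) (-(g.c / e) * l)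
          (lin u v (-b') a' (by linear_combination huv) g) = ⟨e * m, 0, s, e * x'⟩ := by
        rw [Int.emod_def] at hx hs
        push_cast at hx hs e1 e2
        simp only [cen, lin, MulEquiv.coe_mk, Equiv.coe_fn_mk, H.mk.injEq]
        have f1 : u * g.a + v * g.b = m * e := by rw [e1, e2]; linear_combination (m * e : ℤ) * huv
        push_cast
        rw [f1]
        refine ⟨by ring, by rw [e1, e2]; ring, ?_, by linear_combination hx⟩
        linear_combination hs - (g.c / e * l) * hx - (g.c / e * e) * hjl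
      refine ⟨⟨e * m, 0, s, e * x'⟩, ?_, by rw [← key, orb_eq, orb_eq]⟩
      simp only [Finset.coe_union, mem_union, Finset.mem_coe]
      refine Or.inl (Or.inl (Finset.mem_image.2 ?_))
      have k1 : (x' * e + s) % e = s := by rw [Nat.mul_add_mod_self_right, Nat.mod_eq_of_lt hse]
      have k2 : (x' * e + s) / e = x' := by
        rw [add_comm, Nat.add_mul_div_right _ _ he, Nat.div_eq_of_lt hse, zero_add]
      have k3 : x' * e + s < n + 1 := by nlinarith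
      have k4 : e < n + 1 := by nlinarith
      have k5 : m < n + 1 := by nlinarith
      rcases le_total e m with h' | h'
      · exact ⟨(true, e, m, x' * e + s), by
          simp only [Finset.mem_product, Finset.mem_univ, Finset.mem_range, true_and]
          exact ⟨Nat.lt_succ_of_le (Nat.le_sqrt.2 (by nlinarith)), k5, k3⟩, by simp [enc, k1, k2]⟩
      · exact ⟨(false, m, e, x' * e + s), by
          simp only [Finset.mem_product, Finset.mem_univ, Finset.mem_range, true_and]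
          exact ⟨Nat.lt_succ_of_le (Nat.le_sqrt.2 (by nlinarith)), k4, k3⟩, by simp [enc, k1, k2]⟩
  have h2 := (ncard_le_ncard h1 ((Finset.finite_toSet _).image _)).trans
    (ncard_image_le (Finset.finite_toSet _))
  rw [ncard_coe_finset] at h2
  have c1 : S1.card ≤ 2 * (n.sqrt + 1) * (n + 1) ^ 2 :=
    Finset.card_image_le.trans (by simp; ring_nf; rfl)
  have c2 : S2.card ≤ 2 * n ^ 2 + 1 := Finset.card_image_le.trans (by
    rw [Int.card_Icc]; apply Int.toNat_le.2; push_cast; linarith)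
  have c3 : S3.card ≤ (2 * n + 1) ^ 2 := Finset.card_image_le.trans (by
    rw [Finset.card_product, Int.card_Icc, show ((n : ℤ) + 1 - -n).toNat = 2 * n + 1 by omega, sq])
  have := Finset.card_union_le (S1 ∪ S2) S3
  have := Finset.card_union_le S1 S2
  unfold growth
  omega

lemma aut (φ : MulAut H) : ∃ δ u l : ℤ, φ Z = ⟨0, 0, δ, 0⟩ ∧ φ T = ⟨0, 0, l, u⟩ := by
  have h1 : φ Z * φ Z = φ A * φ B * (φ A)⁻¹ * (φ B)⁻¹ := by
    rw [← map_inv, ← map_inv, ← map_mul, ← map_mul, ← map_mul, ← map_mul]; rfl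
  have h2 : ∀ g, φ T * g = g * φ T := fun g => by
    obtain ⟨g, rfl⟩ := φ.surjective g
    rw [← map_mul, ← map_mul]; congr 1
    simp [mul_def, T, add_comm]
  have h3 := congrArg H.c (h2 A)
  have h4 := congrArg H.c (h2 B)
  simp only [mul_def, inv_def, H.mk.injEq, A, B] at h1 h3 h4
  exact ⟨(φ Z).c, (φ T).t, (φ T).c, H.ext (by linarith [h1.1]) (by linarith [h1.2.1]) rfl
    (by linarith [h1.2.2.2]), H.ext (by linarith) (by linarith) rfl rfl⟩

lemma app (φ : MulAut H) {δ u l : ℤ} (h1 : φ Z = ⟨0, 0, δ, 0⟩) (h2 : φ T = ⟨0, 0, l, u⟩)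
    (d s x : ℤ) : φ ⟨d, 0, s, x⟩ =
      ⟨d * (φ A).a, d * (φ A).b, d * (φ A).c + s * δ + x * l, d * (φ A).t + x * u⟩ := by
  have e : (⟨d, 0, s, x⟩ : H) = A ^ d * Z ^ s * T ^ x := by simp [zpow_def, mul_def, A, Z, T]
  rw [e, map_mul, map_mul, map_zpow, map_zpow, map_zpow, h1, h2]
  simp [zpow_def, mul_def]

lemma pm {m : ℕ} {x y δ : ℤ} (hδ : IsUnit δ) (h : (m : ℤ) ∣ y - x * δ) (x0 : 0 ≤ x) (y0 : 0 ≤ y)
    (x1 : 2 * x < m) (y1 : 2 * y < m) : x = y := by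
  rcases Int.isUnit_iff.1 hδ with rfl | rfl
  · have := Int.eq_zero_of_abs_lt_dvd h (abs_lt.2 ⟨by omega, by omega⟩); omega
  · have := Int.eq_zero_of_abs_lt_dvd h (abs_lt.2 ⟨by omega, by omega⟩); omega

lemma sep {d s x d' s' x' : ℕ} (h : orb (⟨d, 0, s, x⟩ : H) = orb ⟨d', 0, s', x'⟩)
    (h1 : 2 * x < d) (h2 : 2 * x' < d') (h3 : 2 * s < x.gcd d) (h4 : 2 * s' < x'.gcd d') :
    d = d' ∧ x = x' ∧ s = s' := by
  obtain ⟨φ, e⟩ : (⟨d', 0, s', x'⟩ : H) ∈ orb (⟨d, 0, s, x⟩ : H) := h ▸ ⟨1, rfl⟩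
  obtain ⟨δ, u, l, a1, a2⟩ := aut φ
  obtain ⟨δ', u', l', b1, b2⟩ := aut φ⁻¹
  have c1 := app φ⁻¹ b1 b2 0 δ 0
  have c2 := app φ⁻¹ b1 b2 0 l u
  have c3 := app φ⁻¹ b1 b2 d' s' x'
  rw [← a1] at c1; rw [← a2] at c2; rw [← e] at c3
  rw [app φ a1 a2] at e
  simp only [MulAut.inv_apply_self, Z, T, H.mk.injEq] at c1 c2 c3 e
  have u1 : IsUnit δ := .of_mul_eq_one δ' (by linarith [c1.2.2.1])
  have u2 : IsUnit u := .of_mul_eq_one u' (by linarith [c2.2.2.2])
  have d1 : d = d' := Nat.dvd_antisymm (Int.natCast_dvd_natCast.1 ⟨_, e.1.symm⟩)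
    (Int.natCast_dvd_natCast.1 ⟨_, c3.1⟩)
  subst d1
  have d2 : (x : ℤ) = x' := pm (m := d) u2 ⟨(φ A).t, by linarith [e.2.2.2]⟩ (by positivity)
    (by positivity) (by omega) (by omega)
  have d3 : x = x' := by omega
  subst d3
  have d4 : (s : ℤ) = s' := pm (m := x.gcd d) u1 (by
      rw [← e.2.2.1, show d * (φ A).c + s * δ + x * l - s * δ = d * (φ A).c + x * l by ring]
      exact dvd_add (Dvd.dvd.mul_right (Int.natCast_dvd_natCast.2 (Nat.gcd_dvd_right _ _)) _)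
        (Dvd.dvd.mul_right (Int.natCast_dvd_natCast.2 (Nat.gcd_dvd_left _ _)) _))
    (by positivity) (by positivity) (by omega) (by omega)
  exact ⟨rfl, rfl, by omega⟩

lemma lower (C : ℕ) : ∃ M, 0 < M ∧ C * M ^ 2 < growth X (4 * M) := by
  classical
  obtain ⟨S, hS⟩ : ∃ S : Finset ℕ, 8 * C + 1 / 2 < ∑ p ∈ S with p.Prime, (1 / p : ℝ) := by
    by_contra! h
    refine not_summable_one_div_on_primes (summable_of_sum_le (c := 8 * C + 1 / 2)
      (fun n => indicator_nonneg (fun _ _ => by positivity) n) fun u => le_trans (le_of_eq ?_) (h u))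
    rw [Finset.sum_filter]
    exact Finset.sum_congr rfl fun n _ => by simp [indicator]
  set P := (S.filter Nat.Prime).erase 2 with hP
  have hP1 : ∀ p ∈ P, p.Prime ∧ p ≠ 2 := fun p hp =>
    ⟨(Finset.mem_filter.1 (Finset.mem_erase.1 hp).2).2, (Finset.mem_erase.1 hp).1⟩
  have hP2 : (8 * C : ℝ) < ∑ p ∈ P, (1 / p : ℝ) := by
    by_cases h : 2 ∈ S.filter Nat.Prime
    · rw [← Finset.add_sum_erase _ _ h] at hS; push_cast at hS; linarith
    · rw [hP, Finset.erase_eq_of_notMem h]; linarith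
  have hk : ∀ p ∈ P, ∃ k, ∏ q ∈ P, q = p * k := fun p hp => Finset.dvd_prod_of_mem _ hp
  choose! k hk using hk
  have hN : 0 < ∏ q ∈ P, q := Finset.prod_pos fun p hp => (hP1 p hp).1.pos
  set N := ∏ q ∈ P, q
  refine ⟨2 * N, by omega, ?_⟩
  let D := P.sigma fun p => Finset.Ico (2 * k p) (4 * k p) ×ˢ Finset.Ico 1 (p / 2 + 1) ×ˢ
    Finset.range (k p)
  have hD : ∀ q ∈ D, q.1 ∈ P ∧ 0 < q.2.1 ∧ 2 * (q.2.1 * q.2.2.1) < q.2.1 * q.1 ∧
      (q.2.1 * q.2.2.1).gcd (q.2.1 * q.1) = q.2.1 ∧ 2 * q.2.2.2 < q.2.1 ∧ q.2.1 * q.1 ≤ 4 * N := by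
    rintro ⟨p, e, x, s⟩ hq
    simp only [D, Finset.mem_sigma, Finset.mem_product, Finset.mem_Ico, Finset.mem_range] at hq ⊢
    obtain ⟨hp, ⟨a1, a2⟩, ⟨a3, a4⟩, a5⟩ := hq
    have h1 := (hP1 p hp).1.eq_two_or_odd.resolve_left (hP1 p hp).2
    have h2 : 2 * x < p := by omega
    have h3 : 0 < e := by omega
    refine ⟨hp, h3, by nlinarith, ?_, by omega, by rw [hk p hp]; nlinarith⟩
    rw [Nat.gcd_mul_left, (Nat.coprime_of_lt_prime (by omega) (by omega) (hP1 p hp).1).symm, mul_one]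
  have h1 := ncard_le_ncard_of_injOn (s := (D : Set (Σ _ : ℕ, ℕ × ℕ × ℕ))) (t := orb '' ball X (4 * (2 * N)))
    (fun q => orb (⟨(q.2.1 * q.1 : ℕ), 0, (q.2.2.2 : ℕ), (q.2.1 * q.2.2.1 : ℕ)⟩ : H))
    (fun q hq => ⟨_, Pool.Agent.H29.Foln.ball_mono (by
      obtain ⟨a1, a2, a3, -, a5, a6⟩ := hD q hq
      have := Nat.le_mul_of_pos_right q.2.1 (hP1 _ a1).1.pos
      omega) (nf_mem _ _ _), rfl⟩)
    (fun q hq r hr h => by
      obtain ⟨-, a2, a3, a4, a5, -⟩ := hD q hq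
      obtain ⟨-, b2, b3, b4, b5, -⟩ := hD r hr
      obtain ⟨c1, c2, c3⟩ := sep h a3 b3 (by rwa [a4]) (by rwa [b4])
      have c4 : q.2.1 = r.2.1 := by rw [← a4, ← b4, c1, c2]
      rw [c4] at c1 c2
      obtain ⟨p, e, x, s⟩ := q
      obtain ⟨p', e', x', s'⟩ := r
      have c5 := Nat.eq_of_mul_eq_mul_left b2 c1
      have c6 := Nat.eq_of_mul_eq_mul_left b2 c2
      simp only at c3 c4 c5 c6
      subst c3 c4 c5 c6; rfl)
    ((Pool.Agent.H29.Foln.ball_fin _).image _)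
  rw [ncard_coe_finset, Finset.card_sigma] at h1
  refine lt_of_lt_of_le ?_ h1
  have h2 : ∑ p ∈ P, (N : ℝ) ^ 2 / 2 * (1 / p) ≤ ∑ p ∈ P, ((Finset.Ico (2 * k p) (4 * k p) ×ˢ
      Finset.Ico 1 (p / 2 + 1) ×ˢ Finset.range (k p)).card : ℝ) := by
    refine Finset.sum_le_sum fun p hp => ?_
    obtain ⟨r, hr⟩ := (hP1 p hp).1.odd_of_ne_two (hP1 p hp).2
    have h3 := (hP1 p hp).1.two_le
    rw [hk p hp]
    simp only [Finset.card_product, Nat.card_Ico, Finset.card_range]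
    rw [show 4 * k p - 2 * k p = 2 * k p by omega, show p / 2 + 1 - 1 = r by omega]
    have h4 : (p : ℝ) = 2 * r + 1 := by exact_mod_cast hr
    have h5 : (1 : ℝ) ≤ r := by exact_mod_cast (show 1 ≤ r by omega)
    push_cast
    rw [mul_one_div, div_le_iff₀ (by linarith), h4]
    have : (0 : ℝ) ≤ (k p) ^ 2 * (2 * r + 1) := by positivity
    nlinarith
  rw [← Finset.mul_sum] at h2
  have h3 : (0 : ℝ) < (N : ℝ) ^ 2 := by positivity
  have h4 : ((C * (2 * N) ^ 2 : ℕ) : ℝ) < ∑ p ∈ P, ((Finset.Ico (2 * k p) (4 * k p) ×ˢ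
      Finset.Ico 1 (p / 2 + 1) ×ˢ Finset.range (k p)).card : ℝ) := by push_cast; nlinarith
  exact_mod_cast h4

theorem result : ∃ (G : Type) (_ : Group G) (X : Finset G), Subgroup.closure (X : Set G) = ⊤ ∧
    (∃ d : ℕ, Dom (growth X) fun n => n ^ d) ∧
    ∀ k : ℕ, ¬ (Dom (growth X) (fun n => n ^ k) ∧ Dom (fun n => n ^ k) (growth X)) := by
  have up : ∀ n, growth X n ≤ 8 * (n.sqrt + 1) * (n + 1) ^ 2 := fun n => by
    have := upper n
    nlinarith [Nat.zero_le (n.sqrt * (n + 1) ^ 2), Nat.zero_le n]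
  refine ⟨H, inferInstance, X, gen, ⟨3, 2, by norm_num, fun n => (up n).trans ?_⟩,
    fun k ⟨⟨l, hl, h1⟩, ⟨m, hm, h2⟩⟩ => ?_⟩
  · have := Nat.mul_le_mul_right ((n + 1) ^ 2) (Nat.succ_le_succ (Nat.sqrt_le_self n))
    nlinarith [Nat.zero_le ((n + 1) ^ 3)]
  rcases le_or_gt k 2 with hk | hk
  · obtain ⟨M, hM, h3⟩ := lower (26 * l ^ 3)
    have h4 := h1 (4 * M)
    have h5 : (l * (4 * M) + l) ^ k ≤ (l * (5 * M)) ^ 2 :=
      (Nat.pow_le_pow_left (by nlinarith) k).trans (Nat.pow_le_pow_right (by positivity) hk)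
    have h6 : l ≤ l ^ 3 * M ^ 2 :=
      (Nat.le_self_pow (by norm_num) l).trans (Nat.le_mul_of_pos_right _ (by positivity))
    have h7 := Nat.mul_le_mul_left l h5
    simp only at h4
    nlinarith
  · set r := 200 * m ^ 4
    have hr : 1 ≤ r := by have : 0 < m ^ 4 := by positivity
                          omega
    have h3 := h2 (r ^ 2)
    have h4 := up (m * r ^ 2 + m)
    have hr2 : 1 ≤ r ^ 2 := Nat.one_le_pow _ _ hr
    have h5 : (m * r ^ 2 + m).sqrt + 1 ≤ 2 * m * r :=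
      Nat.succ_le_of_lt (Nat.sqrt_lt.2 (by
        have a1 : m * r ^ 2 ≤ m * (m * r ^ 2) := Nat.le_mul_of_pos_left _ hm
        have a2 : m ≤ m * r ^ 2 := Nat.le_mul_of_pos_right _ hr2
        have a3 : 2 * m * r * (2 * m * r) = 4 * (m * (m * r ^ 2)) := by ring
        omega))
    have h6 : (m * r ^ 2 + m + 1) ^ 2 ≤ (3 * m * r ^ 2) ^ 2 := Nat.pow_le_pow_left (by nlinarith) 2
    have h7 : (r ^ 2) ^ 3 ≤ (r ^ 2) ^ k := Nat.pow_le_pow_right hr2 hk
    have h8 := Nat.mul_le_mul_left m (h4.trans (Nat.mul_le_mul (Nat.mul_le_mul_left 8 h5) h6))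
    have h9 : m ≤ m ^ 4 * r ^ 5 :=
      (Nat.le_self_pow (by norm_num) m).trans (Nat.le_mul_of_pos_right _ (by positivity))
    have h10 : (r ^ 2) ^ 3 = 200 * (m ^ 4 * r ^ 5) := by
      rw [show (r ^ 2) ^ 3 = r * r ^ 5 by ring, ← mul_assoc]
    have h11 : m * (8 * (2 * m * r) * (3 * m * r ^ 2) ^ 2) = 144 * (m ^ 4 * r ^ 5) := by ring
    simp only at h3
    omega

end Pool.Agent.Results.MP_eff972_al.HeisZ
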